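import Pool.Agent.X176.SI.NotBeta

set_option autoImplicit false

namespace Pool.Agent.Results.MP_eef9c4_lc.ScottElementarity

open Pool.Agent Pool.Agent.Helper227 Pool.Agent.X176.SI

/-- `G_I ⋠_{∃∀} G`: for some parameters `c d r f` from `G_I`, the formula
`∃ x ∀ y, psi x y c d r f` holds in `G` and fails in `G_I`. -/
def NotElementary (I : Set (ℕ → Bool)) (G : Subgroup (Equiv.Perm ℕ)) : Prop :=
  ∃ c ∈ GI I G, ∃ d ∈ GI I G, ∃ r ∈ GI I G, ∃ f ∈ GI I G,
    (∃ x ∈ G, ∀ y ∈ G, psi x y c d r f) ∧ ¬ ∃ x ∈ GI I G, ∀ y ∈ GI I G, psi x y c d r f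

/-- Some Scott ideal `I` and profinite `G` with `deg(T_G) ∈ I` have `G_I ⋠_{∃∀} G`. Moreover one
profinite group `G` with `deg(T_G) = 0` has this property with every Turing ideal `I` that misses
all members of some nonempty `Π⁰₂` class coded in `I`. -/
theorem result :
    (∃ I : Set (ℕ → Bool), IsScottIdeal I ∧
      ∃ G : Subgroup (Equiv.Perm ℕ), IsProfinite G ∧ DegTree I G ∧ NotElementary I G) ∧
    ∃ G : Subgroup (Equiv.Perm ℕ), IsProfinite G ∧
      (∃ T : List ℕ → Bool, (∀ τ, T τ = true ↔ τ ∈ TG G) ∧ Computable T) ∧ Computable (br G) ∧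
      ∀ I : Set (ℕ → Bool), IsTuringIdeal I → ¬ IsBeta I → NotElementary I G := by
  have key : ∀ I : Set (ℕ → Bool), IsTuringIdeal I → ¬ IsBeta I → NotElementary I HH :=
    fun I hI hb => main_HH hI hb
  obtain ⟨⟨T, hT, hTc⟩, hbr⟩ := computable_tree
  refine ⟨?_, HH, isProfiniteH, ⟨T, hT, hTc⟩, hbr, key⟩
  obtain ⟨I, hI, hb⟩ := exists_scott_not_beta
  obtain ⟨X, hX⟩ := hI.nonempty
  exact ⟨I, hI, HH, isProfiniteH, ⟨X, hX, ⟨T, hT, hTc.computableIn⟩, hbr.computableIn⟩,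
    key I hI.toIsTuringIdeal hb⟩

end Pool.Agent.Results.MP_eef9c4_lc.ScottElementarity
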